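import Pool.Agent.W536.LM.Stm

/-!
Project LM (helper536), part ORDB: the order of the iterated resultant at the special point `0`.
-/

set_option autoImplicit false

open Polynomial W536.LM

namespace Pool.Agent.W198.LM.OrdB

def gg : ℕ → ℕ × ℕ
  | 0 => (1, 1)
  | (n+1) => ((gg n).1 + (gg n).2, (gg n).1)

def aa : ℕ → ℕ
  | 0 => 2
  | (n+1) => aa n + (gg n).2

theorem isUnit_of {f : PowerSeries ℝ} (h : PowerSeries.constantCoeff f ≠ 0) : IsUnit f :=
  PowerSeries.isUnit_iff_constantCoeff.2 (isUnit_iff_ne_zero.2 h)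

theorem ord_mul {a b : ℕ} {f g : PowerSeries ℝ} (hf : Ord a f) (hg : Ord b g) :
    Ord (a + b) (f * g) := by
  obtain ⟨u, hu, rfl⟩ := hf
  obtain ⟨v, hv, rfl⟩ := hg
  exact ⟨u * v, hu.mul hv, by ring⟩

theorem ord_unit {f : PowerSeries ℝ} (h : IsUnit f) : Ord 0 f := ⟨f, h, by simp⟩

theorem ord_step {n x y : ℕ} {c f g : PowerSeries ℝ} (hc : PowerSeries.constantCoeff c ≠ 0)
    (hf : Ord x f) (hg : Ord y g) : Ord (x + y) (c ^ n * (f * g)) := by
  have h1 := ord_mul (ord_unit ((isUnit_of hc).pow n)) (ord_mul hf hg)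
  simpa using h1

theorem split0 {w : PowerSeries ℝ} (h : PowerSeries.coeff 0 w = 0) :
    ∃ s : PowerSeries ℝ, w = PowerSeries.X * s ∧ ∀ k, PowerSeries.coeff k s =
      PowerSeries.coeff (k + 1) w := by
  have h1 : PowerSeries.constantCoeff w = 0 := by simpa using h
  obtain ⟨s, hs⟩ := PowerSeries.X_dvd_iff.2 h1
  refine ⟨s, hs, fun k => ?_⟩
  rw [hs, PowerSeries.coeff_succ_X_mul]

theorem splitc {w : PowerSeries ℝ} (c : ℝ) (h : PowerSeries.coeff 0 w = c) :
    ∃ s : PowerSeries ℝ, w = PowerSeries.C c + PowerSeries.X * s ∧ ∀ k, PowerSeries.coeff k s =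
      PowerSeries.coeff (k + 1) w := by
  have h1 : PowerSeries.coeff 0 (w - PowerSeries.C c) = 0 := by
    rw [map_sub, h]; simp
  obtain ⟨s, hs, hs'⟩ := split0 h1
  refine ⟨s, by rw [← hs]; ring, fun k => ?_⟩
  rw [hs' k, map_sub]
  simp

/-- real data -/
structure Dat (P : Par ℝ) (K : ℕ → Subfield ℝ) : Prop where
  L : ∀ j, j ≤ 5 → P.L ∈ K j
  m : ∀ j, j ≤ 5 → ∀ k, P.m k ∈ K j
  e : ∀ j, j ≤ 5 → ∀ k, k ≤ 5 → k ≠ j → P.e k ∈ K j
  ne : ∀ j, j ≤ 5 → P.e j ∉ K j
  m0 : ∀ k, 0 < P.m k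
  mL : ∀ k, P.m k ≠ P.L
  em : ∀ k, k ≤ 5 → P.e k ≠ P.m k
  em' : ∀ k, k ≤ 4 → P.e k ≠ P.m (k + 1)
  eta : ∀ n, n ≤ 4 → G n P ((P.e (4 - n) - P.m (5 - n)) / (P.m (4 - n) - P.L)) 0 ≠ 0

theorem mul_not_mem {K : Subfield ℝ} {c a : ℝ} (hc : c ∈ K) (hc0 : c ≠ 0) (ha : a ∉ K) :
    c * a ∉ K := by
  intro h
  apply ha
  have : a = c⁻¹ * (c * a) := by field_simp
  rw [this]
  exact K.mul_mem (K.inv_mem hc) h

theorem constG (hN : S_NAT) (P : Par ℝ) (n : ℕ) (w w0 : PowerSeries ℝ) :
    PowerSeries.constantCoeff (G n P.ps w w0) =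
      G n P (PowerSeries.constantCoeff w) (PowerSeries.constantCoeff w0) := by
  rw [hN]
  congr 1

theorem base0 {P : Par ℝ} {K : ℕ → Subfield ℝ} (D : Dat P K) (j : ℕ) (hj : j < 5)
    (w : PowerSeries ℝ) (h0 : PowerSeries.coeff 0 w = 0) (h1 : PowerSeries.coeff 1 w ∉ K j) :
    Ord 1 (G 0 P.ps w PowerSeries.X) := by
  obtain ⟨s, hs, hs'⟩ := split0 h0
  have e1 : PowerSeries.constantCoeff s = PowerSeries.coeff 1 w := by
    have := hs' 0
    simpa using this
  refine ⟨(w + PowerSeries.X - 1) * (PowerSeries.C (P.m 0) * s + PowerSeries.C (P.m 5) -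
    PowerSeries.C P.L * w) - PowerSeries.C (P.e 5) * w, ?_, ?_⟩
  · apply isUnit_of
    have e2 : PowerSeries.constantCoeff w = 0 := by simpa using h0
    simp only [map_sub, map_mul, map_add, PowerSeries.constantCoeff_X, PowerSeries.constantCoeff_C,
      map_one, e1, e2]
    intro h
    apply h1
    have hm := (D.m0 0).ne'
    have : PowerSeries.coeff 1 w = -(P.m 5 / P.m 0) := by
      field_simp
      linarith
    rw [this]
    exact (K j).neg_mem ((K j).div_mem (D.m j (by omega) 5) (D.m j (by omega) 0))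
  · show E0 (PowerSeries.C P.L) (PowerSeries.C (P.m 5)) (PowerSeries.C (P.m 0))
      (PowerSeries.C (P.e 5)) w PowerSeries.X = _
    rw [hs]
    unfold E0
    ring

theorem base1 {P : Par ℝ} {K : ℕ → Subfield ℝ} (D : Dat P K)
    (w : PowerSeries ℝ) (h0 : PowerSeries.coeff 0 w = 1) (h1 : PowerSeries.coeff 1 w ∈ K 5) :
    Ord 1 (G 0 P.ps w PowerSeries.X) := by
  obtain ⟨s, hs, hs'⟩ := splitc 1 h0
  have e1 : PowerSeries.constantCoeff s = PowerSeries.coeff 1 w := by
    have := hs' 0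
    simpa using this
  refine ⟨(s + 1) * (PowerSeries.C (P.m 0) * w + PowerSeries.C (P.m 5) * PowerSeries.X -
    PowerSeries.C P.L * w * PowerSeries.X) - PowerSeries.C (P.e 5) * w, ?_, ?_⟩
  · apply isUnit_of
    have e2 : PowerSeries.constantCoeff w = 1 := by simpa using h0
    simp only [map_sub, map_mul, map_add, PowerSeries.constantCoeff_X, PowerSeries.constantCoeff_C,
      map_one, e1, e2]
    intro h
    apply D.ne 5 le_rfl
    have : P.e 5 = (PowerSeries.coeff 1 w + 1) * P.m 0 := by linarith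
    rw [this]
    exact (K 5).mul_mem ((K 5).add_mem h1 (K 5).one_mem) (D.m 5 le_rfl 0)
  · show E0 (PowerSeries.C P.L) (PowerSeries.C (P.m 5)) (PowerSeries.C (P.m 0))
      (PowerSeries.C (P.e 5)) w PowerSeries.X = _
    rw [hs]
    unfold E0
    simp only [map_one]
    ring

theorem base2 {P : Par ℝ} {K : ℕ → Subfield ℝ} (D : Dat P K)
    (w : PowerSeries ℝ) (h0 : PowerSeries.coeff 0 w = 0)
    (h1 : PowerSeries.coeff 1 w = -(P.m 5 / P.m 0)) (h2 : PowerSeries.coeff 2 w ∈ K 5) :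
    Ord 2 (G 0 P.ps w PowerSeries.X) := by
  have hm := (D.m0 0).ne'
  obtain ⟨s, hs, hs'⟩ := split0 h0
  have e1 : PowerSeries.coeff 0 s = -(P.m 5 / P.m 0) := by rw [hs' 0, h1]
  obtain ⟨t, ht, ht'⟩ := splitc _ e1
  have e2 : PowerSeries.constantCoeff t = PowerSeries.coeff 2 w := by
    have := ht' 0
    rw [hs' 1] at this
    simpa using this
  have e3 : PowerSeries.C (P.m 0) * s + PowerSeries.C (P.m 5) =
      PowerSeries.C (P.m 0) * (PowerSeries.X * t) := by
    rw [ht, mul_add, ← map_mul, add_assoc, add_comm _ (PowerSeries.C (P.m 5)), ← add_assoc,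
      ← map_add]
    have : P.m 0 * -(P.m 5 / P.m 0) + P.m 5 = 0 := by field_simp; ring
    rw [this]
    simp
  refine ⟨(w + PowerSeries.X - 1) * (PowerSeries.C (P.m 0) * t -
    PowerSeries.C P.L * s) - PowerSeries.C (P.e 5) * s, ?_, ?_⟩
  · apply isUnit_of
    have e4 : PowerSeries.constantCoeff w = 0 := by simpa using h0
    have e5 : PowerSeries.constantCoeff s = -(P.m 5 / P.m 0) := by simpa using e1
    simp only [map_sub, map_mul, map_add, PowerSeries.constantCoeff_X, PowerSeries.constantCoeff_C,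
      map_one, e2, e4, e5]
    intro h
    apply D.ne 5 le_rfl
    have h5 := (D.m0 5).ne'
    have : P.e 5 = P.L + (P.m 0 * PowerSeries.coeff 2 w) / (P.m 5 / P.m 0) := by
      field_simp
      field_simp at h
      linarith
    rw [this]
    exact (K 5).add_mem (D.L 5 le_rfl) ((K 5).div_mem ((K 5).mul_mem (D.m 5 le_rfl 0) h2)
      ((K 5).div_mem (D.m 5 le_rfl 5) (D.m 5 le_rfl 0)))
  · show E0 (PowerSeries.C P.L) (PowerSeries.C (P.m 5)) (PowerSeries.C (P.m 0))
      (PowerSeries.C (P.e 5)) w PowerSeries.X = _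
    have e6 : E0 (PowerSeries.C P.L) (PowerSeries.C (P.m 5)) (PowerSeries.C (P.m 0))
      (PowerSeries.C (P.e 5)) w PowerSeries.X = PowerSeries.X * ((w + PowerSeries.X - 1) *
        ((PowerSeries.C (P.m 0) * s + PowerSeries.C (P.m 5)) - PowerSeries.C P.L * w) -
        PowerSeries.C (P.e 5) * w) := by
      rw [hs]
      unfold E0
      ring
    rw [e6, e3]
    rw [hs]
    ring

theorem claimB (hN : S_NAT) (hF : S_FAC) (h0 : S_STEP0) (h1 : S_STEP1) {P : Par ℝ}
    {K : ℕ → Subfield ℝ} (D : Dat P K) : ∀ n, n ≤ 4 → ∀ j, j < 5 - n → ∀ w : PowerSeries ℝ,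
      PowerSeries.coeff 1 w ∈ K 5 → PowerSeries.coeff 1 w ∉ K j →
      (PowerSeries.coeff 0 w = 0 → Ord (gg n).1 (G n P.ps w PowerSeries.X)) ∧
      (PowerSeries.coeff 0 w = 1 → Ord (gg n).2 (G n P.ps w PowerSeries.X)) := by
  intro n
  induction n with
  | zero =>
    intro _ j hj w hw hw'
    exact ⟨fun h => base0 D j hj w h hw', fun h => base1 D w h hw⟩
  | succ n ih =>
    intro hn j hj w hw hw'
    have hk : 5 - n = 4 - n + 1 := by omega
    have hmem5 : P.e (4 - n) ∈ K 5 := D.e 5 le_rfl _ (by omega) (by omega)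
    have hmemj : P.e (4 - n) ∈ K j := D.e j (by omega) _ (by omega) (by omega)
    have hm := (D.m0 (4 - n)).ne'
    have hm' := (D.m0 (5 - n)).ne'
    constructor
    · intro hz
      obtain ⟨a, r0, r1, ha, hE, c0, c1, -, d0, d1⟩ :=
        h0 P.L (P.m (4 - n)) (P.m (5 - n)) (P.e (4 - n)) w hm hz
      have hG := hF n (PowerSeries ℝ) P.ps a r0 r1 w PowerSeries.X hE
      rw [hG]
      have q0 : P.m (5 - n) / P.m (4 - n) ≠ 0 := div_ne_zero hm' hm
      have q1 : P.e (4 - n) / P.m (4 - n) - 1 ≠ 0 := by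
        have := D.em (4 - n) (by omega)
        intro h
        apply this
        field_simp at h
        linarith
      apply ord_step ha
      · apply (ih (by omega) j (by omega) r0 _ _).1 c0
        · rw [c1]
          exact (K 5).mul_mem ((K 5).neg_mem ((K 5).div_mem (D.m 5 le_rfl _) (D.m 5 le_rfl _))) hw
        · rw [c1]
          exact mul_not_mem ((K j).neg_mem ((K j).div_mem (D.m j (by omega) _)
            (D.m j (by omega) _))) (neg_ne_zero.2 q0) hw'
      · apply (ih (by omega) j (by omega) r1 _ _).2 d0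
        · rw [d1]
          exact (K 5).mul_mem ((K 5).sub_mem ((K 5).div_mem hmem5 (D.m 5 le_rfl _))
            (K 5).one_mem) hw
        · rw [d1]
          exact mul_not_mem ((K j).sub_mem ((K j).div_mem hmemj (D.m j (by omega) _))
            (K j).one_mem) q1 hw'
    · intro hz
      have hne : P.e (4 - n) ≠ P.m (5 - n) := by
        rw [hk]
        exact D.em' (4 - n) (by omega)
      obtain ⟨a, r0, r1, ha, hE, c0, c1, d0⟩ :=
        h1 P.L (P.m (4 - n)) (P.m (5 - n)) (P.e (4 - n)) w (D.mL _) hne hz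
      have hG := hF n (PowerSeries ℝ) P.ps a r0 r1 w PowerSeries.X hE
      rw [hG]
      have q0 : P.m (5 - n) / (P.e (4 - n) - P.m (5 - n)) ≠ 0 :=
        div_ne_zero hm' (sub_ne_zero.2 hne)
      have hu : Ord 0 (G n P.ps r1 PowerSeries.X) := by
        apply ord_unit
        apply isUnit_of
        rw [constG hN]
        have : PowerSeries.constantCoeff r1 =
          (P.e (4 - n) - P.m (5 - n)) / (P.m (4 - n) - P.L) := by simpa using d0
        rw [this, PowerSeries.constantCoeff_X]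
        exact D.eta n (by omega)
      have hv : Ord (gg n).1 (G n P.ps r0 PowerSeries.X) := by
        apply (ih (by omega) j (by omega) r0 _ _).1 c0
        · rw [c1]
          exact (K 5).mul_mem ((K 5).div_mem (D.m 5 le_rfl _)
            ((K 5).sub_mem hmem5 (D.m 5 le_rfl _))) hw
        · rw [c1]
          exact mul_not_mem ((K j).div_mem (D.m j (by omega) _)
            ((K j).sub_mem hmemj (D.m j (by omega) _))) q0 hw'
      have := ord_step (n := 2 ^ (n + 1)) ha hv hu
      simpa [gg] using this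

theorem claimA (hN : S_NAT) (hF : S_FAC) (h0 : S_STEP0) (h1 : S_STEP1) {P : Par ℝ}
    {K : ℕ → Subfield ℝ} (D : Dat P K) : ∀ n, n ≤ 5 → ∀ w : PowerSeries ℝ,
      PowerSeries.coeff 0 w = 0 → PowerSeries.coeff 1 w = (-1) ^ (5 - n) * (P.m (5 - n) / P.m 0) →
      PowerSeries.coeff 2 w ∈ K 5 → Ord (aa n) (G n P.ps w PowerSeries.X) := by
  intro n
  induction n with
  | zero =>
    intro _ w hw0 hw1 hw2
    apply base2 D w hw0 _ hw2
    rw [hw1]
    norm_num
  | succ n ih =>
    intro hn w hw0 hw1 hw2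
    have hk : 5 - n = 4 - n + 1 := by omega
    have hk' : 5 - (n + 1) = 4 - n := by omega
    rw [hk'] at hw1
    have hmem5 : P.e (4 - n) ∈ K 5 := D.e 5 le_rfl _ (by omega) (by omega)
    have hm := (D.m0 (4 - n)).ne'
    have hm' := (D.m0 (5 - n)).ne'
    have hm0 := (D.m0 0).ne'
    have hs5 : PowerSeries.coeff 1 w ∈ K 5 := by
      rw [hw1]
      exact (K 5).mul_mem ((K 5).pow_mem ((K 5).neg_mem (K 5).one_mem) _)
        ((K 5).div_mem (D.m 5 le_rfl _) (D.m 5 le_rfl _))
    obtain ⟨a, r0, r1, ha, hE, c0, c1, c2, d0, d1⟩ :=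
      h0 P.L (P.m (4 - n)) (P.m (5 - n)) (P.e (4 - n)) w hm hw0
    have hG := hF n (PowerSeries ℝ) P.ps a r0 r1 w PowerSeries.X hE
    rw [hG]
    apply ord_step ha
    · apply ih (by omega) r0 c0
      · rw [c1, hw1]
        rw [hk, pow_succ]
        field_simp
      · rw [c2]
        apply (K 5).neg_mem
        apply (K 5).div_mem _ (D.m 5 le_rfl _)
        apply (K 5).add_mem
        · exact (K 5).mul_mem (D.m 5 le_rfl _) hw2
        · apply (K 5).mul_mem
          · exact (K 5).mul_mem ((K 5).sub_mem hmem5 (D.L 5 le_rfl)) hs5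
          · exact (K 5).mul_mem ((K 5).neg_mem ((K 5).div_mem (D.m 5 le_rfl _)
              (D.m 5 le_rfl _))) hs5
    · apply (claimB hN hF h0 h1 D n (by omega) (4 - n) (by omega) r1 _ _).2 d0
      · rw [d1]
        exact (K 5).mul_mem ((K 5).sub_mem ((K 5).div_mem hmem5 (D.m 5 le_rfl _))
          (K 5).one_mem) hs5
      · rw [d1]
        have hnot : P.e (4 - n) / P.m (4 - n) - 1 ∉ K (4 - n) := by
          intro h
          apply D.ne (4 - n) (by omega)
          have : P.e (4 - n) = (P.e (4 - n) / P.m (4 - n) - 1 + 1) * P.m (4 - n) := by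
            field_simp
            ring
          rw [this]
          exact (K _).mul_mem ((K _).add_mem h (K _).one_mem) (D.m (4 - n) (by omega) _)
        rw [mul_comm]
        refine mul_not_mem ?_ ?_ hnot
        · rw [hw1]
          exact (K _).mul_mem ((K _).pow_mem ((K _).neg_mem (K _).one_mem) _)
            ((K _).div_mem (D.m _ (by omega) _) (D.m _ (by omega) _))
        · rw [hw1]
          exact mul_ne_zero (pow_ne_zero _ (by norm_num)) (div_ne_zero hm hm0)

theorem dat (hN : S_NAT) (hE : S_ETA) {P : Par ℝ} (hP : GenP P) :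
    ∃ K : ℕ → Subfield ℝ, Dat P K := by
  obtain ⟨hL, hm, hmL, hem, hem', F, hF⟩ := hP
  refine ⟨fun j => (F j).comap Complex.ofRealHom, ?_, ?_, ?_, ?_, hm, hmL, hem, hem', ?_⟩
  · intro j hj
    exact (hF j hj).2.1
  · intro j hj k
    exact (hF j hj).2.2.1 k
  · intro j hj k hk hkj
    exact (hF j hj).2.2.2.1 k hk hkj
  · intro j hj
    exact (hF j hj).2.2.2.2
  · intro n hn h
    have hND : ND P.cx := by
      refine ⟨?_, ?_, ?_⟩
      · show ((P.L : ℝ) : ℂ) ≠ 0
        exact_mod_cast hL.ne'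
      · intro k
        show ((P.m k : ℝ) : ℂ) ≠ 0
        exact_mod_cast (hm k).ne'
      · intro k
        show ((P.m k : ℝ) : ℂ) ≠ ((P.L : ℝ) : ℂ)
        exact_mod_cast hmL k
    have h2 := hE F P.cx hND hF n 0 hn (Or.inl rfl)
    apply h2
    have h3 := hN n ℝ ℂ Complex.ofRealHom P
      ((P.e (4 - n) - P.m (5 - n)) / (P.m (4 - n) - P.L)) 0
    rw [h, map_zero, map_div₀, map_sub, map_sub] at h3
    exact h3.symm

theorem t_ORDB (hN : S_NAT) (hF : S_FAC) (h0 : S_STEP0) (h1 : S_STEP1) (hE : S_ETA) :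
    S_ORDB := by
  intro P hP
  obtain ⟨K, D⟩ := dat hN hE hP
  have h := claimA hN hF h0 h1 D 5 le_rfl PowerSeries.X
    (by simp) (by
      have hm0 := (D.m0 0).ne'
      simp [PowerSeries.coeff_X, hm0]) (by
      simp [PowerSeries.coeff_X, (K 5).zero_mem])
  simpa [aa, gg] using h

end Pool.Agent.W198.LM.OrdB
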